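import Pool.Agent.Helper53K9.SK.Main

/-!
# Stable manifolds of skew products over `z ↦ z ^ d` need not be biholomorphic to `ℂ²`

MP_e40659_an, Q1, negated form. Let `ζ = exp (2 π i / (d + 1))`. Then `ζ ↦ ζ ^ d = ζ⁻¹ ↦ ζ` is an
orbit of period two of `z ↦ z ^ d`. Consider the linear maps
`G_λ w = κ • (w + (x w₂ - y w₁) • (x, y))`, with `x = R (λ - ζ⁻¹)` and `y = R (λ - ζ)`.
The only eigenvalue of `G_λ` is `κ`, for every `λ`, so the origin is an attracting fixed point of
the automorphism `G_λ`. For large `R`, the product of the two maps along the periodic orbit is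
expanding in one direction. Hence the stable set is a proper subspace of `ℂ²` for every `q` whose
orbit hits `ζ`, and these points are dense in the unit circle.
-/

set_option autoImplicit false

namespace Pool.Agent.Results.MP_e40659_an.PointwiseAttraction

open Pool.Agent.Helper53K9.SK

/-- For every `d ≥ 2` and every `κ ∈ (0, 1)` there is a map `F (z₁, z₂, z₃) = (z₁ ^ d, G_{z₁} (z₂, z₃))`
that satisfies the hypotheses of the problem, such that all the maps `G_λ` are linear with the only
eigenvalue `κ`, and such that the set of the points `q` of the unit circle for which the stable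
manifold of `(q, 0, 0)` is not the image of an injective holomorphic map from `ℂ²` to `ℂ²` is dense
in the unit circle. -/
theorem result (d : ℕ) (hd : 2 ≤ d) (κ : ℝ) (hκ : 0 < κ) (hκ1 : κ < 1) :
    ∃ A : ℂ → Module.End ℂ (ℂ × ℂ), (Admissible fun l w => A l w) ∧
      (∀ (l μ : ℂ) (v : ℂ × ℂ), v ≠ 0 → A l v = μ • v → μ = κ) ∧
      ∀ p₁ : ℂ, ‖p₁‖ = 1 → ∀ ε > 0, ∃ q : ℂ, ‖q‖ = 1 ∧ ‖q - p₁‖ < ε ∧
        ¬ IsInjectiveHolomorphicImage (stableSet d (fun l w => A l w) q) :=
  main hd hκ hκ1

end Pool.Agent.Results.MP_e40659_an.PointwiseAttraction
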